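import Pool.Agent.PW.StmtsA

/-!
Squad PW, row EUF (helper15): the dual derivations lower the order, the Euler operator keeps it.
-/

set_option autoImplicit false

namespace Pool.Agent.PW.H15

open MvPolynomial Pool.Agent.PW
open Pool.Agent.RS (FF io)

theorem euf (fgs : FgsStmt) (fgm : FgmStmt) (fgx : FgxStmt) (fgz : FgzStmt) (fgp : FgpStmt)
    (rrs : RrsStmt) (dlt : DltStmt) : EufStmt := by
  intro E _ _ ρ c k j y G z H hy hz hzG hH hR hρk
  obtain ⟨m1, -, -, -, -⟩ := fgm E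
  obtain ⟨-, ⟨S, hS⟩, r3, -, r5, r6⟩ := rrs E k
  obtain ⟨Δ, hΔ0, hΔ, hn⟩ := (dlt E ρ y G z hy hz).2.2 hzG
  set T : Finset ℕ := G ∪ Finset.univ.image z with hT
  have hGT : G ⊆ T := Finset.subset_union_left
  have hzT : Finset.univ.image z ⊆ T := Finset.subset_union_right
  -- the entries of the inverse matrix
  have hV : ∀ a b, FG 0 T ((VV y z)⁻¹ a b) ∧ RR k ((VV y z)⁻¹ a b) := by
    intro a b
    obtain ⟨n, hn1, hn2⟩ := hn a b
    refine ⟨m1 0 _ _ _ hzT ((fgz E (Finset.univ.image z) _).1.2 ⟨n, Δ, hΔ0, hn1, hΔ, hn2⟩), ?_⟩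
    have hc : Δ.vars.card ≤ k := by
      refine (Finset.card_le_card hΔ).trans (Finset.card_image_le.trans ?_)
      rw [Finset.card_univ, Fintype.card_fin]
      exact hρk
    rw [hn2, div_eq_mul_inv, ← hS]
    exact S.mul_mem ((hS _).2 (r5 n)) ((hS _).2 (r6 Δ hΔ0 hc))
  have hd : ∀ b, FG c T (dd (z b) H) ∧ RR k (dd (z b) H) := by
    intro b
    have h1 : FG c (insert (z b) G) (dd (z b) H) := hH (z b) (hzG b)
    refine ⟨m1 c _ _ _ ?_ h1, r3 _ _ hR⟩
    exact Finset.insert_subset (hzT (Finset.mem_image_of_mem z (Finset.mem_univ b))) hGT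
  have hdel : ∀ a, del y z a H = ∑ b, (VV y z)⁻¹ a b * dd (z b) H := by
    intro a
    unfold del
    have h := congrFun (map_sum (Derivation.coeFnAddMonoidHom (R := E) (A := FF E) (M := FF E))
      (fun b => (VV y z)⁻¹ a b • dd (z b)) Finset.univ) H
    rw [Finset.sum_apply] at h
    exact h
  have h1 : ∀ a, FG c T (del y z a H) ∧ RR k (del y z a H) := by
    intro a
    rw [hdel]
    constructor
    · obtain ⟨U, hU⟩ := fgs E c T
      rw [← hU]
      refine U.sum_mem fun b _ => (hU _).2 ?_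
      have h2 := fgx E 0 c T _ _ (hV a b).1 (hd b).1
      rwa [Nat.zero_add] at h2
    · rw [← hS]
      exact sum_mem fun b _ => S.mul_mem ((hS _).2 (hV a b).2) ((hS _).2 (hd b).2)
  refine ⟨h1, ?_, ?_⟩
  · obtain ⟨U, hU⟩ := fgs E (c + 1) T
    unfold eul
    rw [← hU]
    have e1 : ((j : FF E))⁻¹ * ∑ a, io E (y a) * del y z a H =
        ((j : E))⁻¹ • ∑ a, io E (y a) * del y z a H := by
      rw [Algebra.smul_def, map_inv₀, map_natCast]
    rw [e1]
    refine U.sub_mem ((hU _).2 (m1 _ _ _ _ hGT hH)) (U.smul_mem _ (U.sum_mem fun a _ =>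
      (hU _).2 ?_))
    have h2 : FG 1 T (io E (y a)) := m1 1 _ _ _ hGT ((fgp E G (y a)).1 (hy a))
    have h3 := fgx E 1 c T _ _ h2 (h1 a).1
    rwa [Nat.add_comm] at h3
  · unfold eul
    rw [← hS]
    have e1 : ((j : FF E))⁻¹ * ∑ a, io E (y a) * del y z a H =
        ((j : E))⁻¹ • ∑ a, io E (y a) * del y z a H := by
      rw [Algebra.smul_def, map_inv₀, map_natCast]
    rw [e1]
    exact S.sub_mem ((hS _).2 hR) (S.smul_mem (sum_mem fun a _ =>
      S.mul_mem ((hS _).2 (r5 _)) ((hS _).2 (h1 a).2)) _)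

end Pool.Agent.PW.H15
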